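import Mathlib

/-!
# Germs of `(4,6)`-distributions: definitions
-/

open Set

namespace Q195.Dist46

/-- The manifold `ℝ⁶`. -/
abbrev E : Type := Fin 6 → ℝ

/-- The exterior derivative `dμ(u, v)` at `x` of a 1-form `μ` on `ℝ⁶`. -/
noncomputable def dForm (μ : E → E →L[ℝ] ℝ) (x u v : E) : ℝ :=
  fderiv ℝ μ x u v - fderiv ℝ μ x v u

/-- `X` is a smooth frame of the rank-4 distribution `D` on `U`. -/
structure IsFrameOn (D : E → Submodule ℝ E) (X : Fin 4 → E → E) (U : Set E) : Prop where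
  smooth : ∀ i, ContDiffOn ℝ (⊤ : ℕ∞) (X i) U
  indep : ∀ x ∈ U, LinearIndependent ℝ (fun i => X i x)
  span : ∀ x ∈ U, Submodule.span ℝ (Set.range fun i => X i x) = D x

/-- The Pfaffian of a skew `4 × 4` matrix. -/
def pf (w : Fin 4 → Fin 4 → ℝ) : ℝ := w 0 1 * w 2 3 - w 0 2 * w 1 3 + w 0 3 * w 1 2

/-- For a covector `ψ` annihilating `D_x`, half of the value of `(ψ ∘ L_x) ∧ (ψ ∘ L_x)` on the
frame `(X_1, …, X_4)` at `x`, where `L` is the curvature tensor: the Pfaffian of the matrix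
`ψ([X_i, X_j](x))`. -/
noncomputable def qForm (X : Fin 4 → E → E) (x : E) (ψ : E →L[ℝ] ℝ) : ℝ :=
  pf fun i j => ψ (VectorField.lieBracket ℝ (X i) (X j) x)

/-- `D` is a hyperbolic `(4,6)`-distribution near `p`: it has a smooth frame `X` on a
neighbourhood `U` of `p` and, at every point of `U`, the quadratic form `q_D` on the plane of the
covectors annihilating `D_x` takes positive and negative values (that is, it is nondegenerate and
indefinite). -/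
def IsHyperbolic (D : E → Submodule ℝ E) (p : E) : Prop :=
  ∃ U : Set E, IsOpen U ∧ p ∈ U ∧ ∃ X : Fin 4 → E → E, IsFrameOn D X U ∧ ∀ x ∈ U,
    ∃ ψ ψ' : E →L[ℝ] ℝ, (∀ v ∈ D x, ψ v = 0) ∧ (∀ v ∈ D x, ψ' v = 0) ∧
      0 < qForm X x ψ ∧ qForm X x ψ' < 0

/-- The germ of `D` at `p` admits Reeb directions. -/
def AdmitsReeb (D : E → Submodule ℝ E) (p : E) : Prop :=
  ∃ U : Set E, IsOpen U ∧ p ∈ U ∧ ∃ (l : Fin 2 → E → E →L[ℝ] ℝ) (Z : Fin 2 → E → E),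
    (∀ i, ContDiffOn ℝ (⊤ : ℕ∞) (l i) U) ∧ (∀ i, ContDiffOn ℝ (⊤ : ℕ∞) (Z i) U) ∧ ∀ x ∈ U,
      (∀ v, v ∈ D x ↔ ∀ i, l i x v = 0) ∧
      IsCompl (D x) (Submodule.span ℝ (Set.range fun i => Z i x)) ∧
      (∀ i j, l i x (Z j x) = if i = j then 1 else 0) ∧
      (∀ i j, ∀ v ∈ D x, dForm (l j) x (Z i x) v = 0) ∧
      VectorField.lieBracket ℝ (Z 0) (Z 1) x = 0

/-- The germs of `D` at `p` and of `D'` at `p'` are diffeomorphic. -/
def GermDiffeo (D : E → Submodule ℝ E) (p : E) (D' : E → Submodule ℝ E) (p' : E) : Prop :=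
  ∃ φ : OpenPartialHomeomorph E E, p ∈ φ.source ∧ φ p = p' ∧
    ContDiffOn ℝ (⊤ : ℕ∞) φ φ.source ∧ ContDiffOn ℝ (⊤ : ℕ∞) φ.symm φ.target ∧
    ∀ x ∈ φ.source, (D x).map (fderiv ℝ φ x : E →ₗ[ℝ] E) = D' (φ x)

/-- The `j`-th coordinate, as a covector. The coordinates are ordered
`(x_1, y_1, x_2, y_2, z_1, z_2)`. -/
noncomputable def pr (j : Fin 6) : E →L[ℝ] ℝ :=
  ContinuousLinearMap.proj (R := ℝ) (φ := fun _ : Fin 6 => ℝ) j

/-- The flat hyperbolic distribution `ker (dz_1 - y_1 dx_1) ∩ ker (dz_2 - y_2 dx_2)`. -/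
noncomputable def flat (x : E) : Submodule ℝ E :=
  LinearMap.ker (pr 4 - x 1 • pr 0 : E →L[ℝ] ℝ).toLinearMap ⊓
    LinearMap.ker (pr 5 - x 3 • pr 2 : E →L[ℝ] ℝ).toLinearMap

end Q195.Dist46
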