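import Pool.Agent.Q195.Dist46.Defs

/-!
# The example
-/

open Set Filter

namespace Q195.Dist46

@[simp] theorem pr_apply (j : Fin 6) (v : E) : pr j v = v j := rfl

/-- `λ₁ = dz_1 - y_1 dx_1 - y_2 dx_2`. -/
noncomputable def l1 (x : E) : E →L[ℝ] ℝ := pr 4 - x 1 • pr 0 - x 3 • pr 2

/-- `λ₂ = dz_2 + (x_1²/2) dy_1 + x_2 dy_2`. -/
noncomputable def l2 (x : E) : E →L[ℝ] ℝ := pr 5 + (x 0 ^ 2 / 2) • pr 1 + x 2 • pr 3

/-- The distribution `ker λ₁ ∩ ker λ₂`. -/
noncomputable def D (x : E) : Submodule ℝ E :=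
  LinearMap.ker (l1 x).toLinearMap ⊓ LinearMap.ker (l2 x).toLinearMap

theorem mem_D {x v : E} : v ∈ D x ↔ l1 x v = 0 ∧ l2 x v = 0 := by
  simp [D]

theorem l1_fderiv (x : E) :
    HasFDerivAt l1 (-(pr 1).smulRight (pr 0) - (pr 3).smulRight (pr 2)) x := by
  have h1 : HasFDerivAt (fun x : E => x 1 • pr 0) ((pr 1).smulRight (pr 0)) x :=
    ((pr 1).hasFDerivAt).smul_const (pr 0)
  have h3 : HasFDerivAt (fun x : E => x 3 • pr 2) ((pr 3).smulRight (pr 2)) x :=
    ((pr 3).hasFDerivAt).smul_const (pr 2)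
  exact (h1.const_sub (pr 4)).sub h3

theorem l2_fderiv (x : E) :
    HasFDerivAt l2 ((x 0 • pr 0).smulRight (pr 1) + (pr 2).smulRight (pr 3)) x := by
  have h0 : HasFDerivAt (fun x : E => x 0 ^ 2 / 2) (x 0 • pr 0) x := by
    have h := ((pr 0).hasFDerivAt (x := x)).pow 2
    have h' := h.const_mul (1 / 2 : ℝ)
    refine (h'.congr_of_eventuallyEq (Eventually.of_forall fun y => ?_)).congr_fderiv ?_
    · simp; ring
    · ext v; simp; ring
  have h1 : HasFDerivAt (fun x : E => (x 0 ^ 2 / 2) • pr 1) ((x 0 • pr 0).smulRight (pr 1)) x :=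
    h0.smul_const (pr 1)
  have h3 : HasFDerivAt (fun x : E => x 2 • pr 3) ((pr 2).smulRight (pr 3)) x :=
    ((pr 2).hasFDerivAt).smul_const (pr 3)
  exact (h1.const_add (pr 5)).add h3

theorem dl1 (x u v : E) : dForm l1 x u v = u 0 * v 1 - u 1 * v 0 + (u 2 * v 3 - u 3 * v 2) := by
  unfold dForm
  rw [(l1_fderiv x).fderiv]
  simp
  ring

theorem dl2 (x u v : E) : dForm l2 x u v
    = x 0 * (u 0 * v 1 - u 1 * v 0) + (u 2 * v 3 - u 3 * v 2) := by
  unfold dForm
  rw [(l2_fderiv x).fderiv]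
  simp
  ring

theorem l1_smooth : ContDiff ℝ (⊤ : ℕ∞) l1 := by
  unfold l1
  have h : ∀ j : Fin 6, ContDiff ℝ (⊤ : ℕ∞) (fun x : E => x j) := fun j => (pr j).contDiff
  exact (contDiff_const.sub ((h 1).smul contDiff_const)).sub ((h 3).smul contDiff_const)

theorem l2_smooth : ContDiff ℝ (⊤ : ℕ∞) l2 := by
  unfold l2
  have h : ∀ j : Fin 6, ContDiff ℝ (⊤ : ℕ∞) (fun x : E => x j) := fun j => (pr j).contDiff
  exact (contDiff_const.add ((((h 0).pow 2).div_const 2).smul contDiff_const)).add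
    ((h 2).smul contDiff_const)

/-- The frame of `D`. -/
noncomputable def fr (i : Fin 4) (x : E) : E :=
  ![![1, 0, 0, 0, x 1, 0], ![0, 1, 0, 0, 0, -(x 0 ^ 2 / 2)], ![0, 0, 1, 0, x 3, 0],
    ![0, 0, 0, 1, 0, -x 2]] i

/-- The derivatives of the frame fields. -/
noncomputable def dfr (i : Fin 4) (x : E) : E →L[ℝ] E :=
  ![(pr 1).smulRight (Pi.single 4 1), -((x 0 • pr 0).smulRight (Pi.single 5 1)),
    (pr 3).smulRight (Pi.single 4 1), -((pr 2).smulRight (Pi.single 5 1))] i

theorem fr_fderiv (i : Fin 4) (x : E) : HasFDerivAt (fr i) (dfr i x) x := by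
  have h0 : HasFDerivAt (fun x : E => x 0 ^ 2 / 2) (x 0 • pr 0) x := by
    have h := ((pr 0).hasFDerivAt (x := x)).pow 2
    have h' := h.const_mul (1 / 2 : ℝ)
    refine (h'.congr_of_eventuallyEq (Eventually.of_forall fun y => ?_)).congr_fderiv ?_
    · simp; ring
    · ext v; simp; ring
  fin_cases i
  · have h := (((pr 1).hasFDerivAt (x := x)).smul_const
      (Pi.single 4 1 : E)).const_add (![1, 0, 0, 0, 0, 0] : E)
    refine h.congr_of_eventuallyEq (Eventually.of_forall fun y => ?_)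
    ext j; fin_cases j <;> simp [fr]
  · have h := ((h0.smul_const (Pi.single 5 1 : E)).neg).const_add (![0, 1, 0, 0, 0, 0] : E)
    refine h.congr_of_eventuallyEq (Eventually.of_forall fun y => ?_)
    ext j; fin_cases j <;> simp [fr]
  · have h := (((pr 3).hasFDerivAt (x := x)).smul_const
      (Pi.single 4 1 : E)).const_add (![0, 0, 1, 0, 0, 0] : E)
    refine h.congr_of_eventuallyEq (Eventually.of_forall fun y => ?_)
    ext j; fin_cases j <;> simp [fr]
  · have h := ((((pr 2).hasFDerivAt (x := x)).smul_const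
      (Pi.single 5 1 : E)).neg).const_add (![0, 0, 0, 1, 0, 0] : E)
    refine h.congr_of_eventuallyEq (Eventually.of_forall fun y => ?_)
    ext j; fin_cases j <;> simp [fr]

theorem fr_smooth (i : Fin 4) : ContDiff ℝ (⊤ : ℕ∞) (fr i) := by
  rw [contDiff_pi]
  intro j
  fin_cases i <;> fin_cases j <;> simp [fr] <;> fun_prop

theorem fr_mem (i : Fin 4) (x : E) : fr i x ∈ D x := by
  rw [mem_D]
  fin_cases i <;> simp [fr, l1, l2]

theorem fr_indep (x : E) : LinearIndependent ℝ (fun i => fr i x) := by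
  rw [Fintype.linearIndependent_iff]
  intro g hg i
  rw [Fin.sum_univ_four] at hg
  have e0 := congrFun hg 0
  have e1 := congrFun hg 1
  have e2 := congrFun hg 2
  have e3 := congrFun hg 3
  simp [fr] at e0 e1 e2 e3
  fin_cases i
  · exact e0
  · exact e1
  · exact e2
  · exact e3

theorem D_expand {x v : E} (hv : v ∈ D x) :
    v = v 0 • fr 0 x + v 1 • fr 1 x + v 2 • fr 2 x + v 3 • fr 3 x := by
  rw [mem_D] at hv
  obtain ⟨h1, h2⟩ := hv
  simp [l1, l2] at h1 h2
  ext j
  fin_cases j <;> simp [fr]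
  · linarith
  · linarith

theorem fr_span (x : E) : Submodule.span ℝ (Set.range fun i => fr i x) = D x := by
  refine le_antisymm ?_ ?_
  · rw [Submodule.span_le]
    rintro _ ⟨i, rfl⟩
    exact fr_mem i x
  · intro v hv
    rw [D_expand hv]
    have h : ∀ i, fr i x ∈ Submodule.span ℝ (Set.range fun i => fr i x) := fun i =>
      Submodule.subset_span ⟨i, rfl⟩
    exact add_mem (add_mem (add_mem (Submodule.smul_mem _ _ (h 0)) (Submodule.smul_mem _ _ (h 1)))
      (Submodule.smul_mem _ _ (h 2))) (Submodule.smul_mem _ _ (h 3))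

theorem isFrame (U : Set E) : IsFrameOn D fr U where
  smooth i := (fr_smooth i).contDiffOn
  indep x _ := fr_indep x
  span x _ := fr_span x

theorem bracket (i j : Fin 4) (x : E) : VectorField.lieBracket ℝ (fr i) (fr j) x
    = dfr j x (fr i x) - dfr i x (fr j x) := by
  rw [VectorField.lieBracket, (fr_fderiv i x).fderiv, (fr_fderiv j x).fderiv]

/-- The value of `q_D` on `a λ₁ + b λ₂`. -/
theorem q_val (x : E) (a b : ℝ) :
    qForm fr x (a • l1 x + b • l2 x) = (a + b * x 0) * (a + b) := by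
  unfold qForm pf
  simp only [bracket]
  simp [dfr, fr, l1, l2]
  ring

theorem hyperbolic : IsHyperbolic D 0 := by
  refine ⟨{x | x 0 < 1}, isOpen_lt (continuous_apply 0) continuous_const, by simp, fr,
    isFrame _, fun x hx => ?_⟩
  have hx' : x 0 < 1 := hx
  have ann : ∀ a b : ℝ, ∀ v ∈ D x, (a • l1 x + b • l2 x) v = 0 := by
    intro a b v hv
    rw [mem_D] at hv
    simp [hv.1, hv.2]
  refine ⟨(1 : ℝ) • l1 x + (0 : ℝ) • l2 x, (-(x 0 + 1) / 2) • l1 x + (1 : ℝ) • l2 x, ann _ _,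
    ann _ _, ?_, ?_⟩
  · rw [q_val]; norm_num
  · rw [q_val]
    nlinarith [mul_pos (sub_pos.2 hx') (sub_pos.2 hx')]

theorem reeb : AdmitsReeb D 0 := by
  refine ⟨univ, isOpen_univ, mem_univ _, ![l1, l2], ![fun _ => Pi.single 4 1,
    fun _ => Pi.single 5 1], fun i => ?_, fun i => ?_, fun x _ => ⟨fun v => ?_, ?_, fun i j => ?_,
    fun i j v hv => ?_, ?_⟩⟩
  · fin_cases i
    · exact l1_smooth.contDiffOn
    · exact l2_smooth.contDiffOn
  · fin_cases i
    · exact contDiffOn_const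
    · exact contDiffOn_const
  · rw [mem_D, Fin.forall_fin_two]
    rfl
  · have hr : (Set.range fun i : Fin 2 => (![fun _ => Pi.single 4 1,
        fun _ => Pi.single 5 1] : Fin 2 → E → E) i x) = {Pi.single 4 1, Pi.single 5 1} := by
      ext v
      simp only [Set.mem_range, Fin.exists_fin_two, Set.mem_insert_iff, Set.mem_singleton_iff]
      exact or_congr eq_comm eq_comm
    rw [hr]
    constructor
    · rw [Submodule.disjoint_def]
      intro v hv hv2
      rw [Submodule.mem_span_pair] at hv2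
      obtain ⟨a, b, rfl⟩ := hv2
      rw [mem_D] at hv
      simp [l1, l2] at hv
      simp [hv.1, hv.2]
    · rw [codisjoint_iff, eq_top_iff]
      intro v _
      rw [Submodule.mem_sup]
      refine ⟨v - (l1 x v • Pi.single 4 1 + l2 x v • Pi.single 5 1), ?_,
        l1 x v • Pi.single 4 1 + l2 x v • Pi.single 5 1, ?_, by simp⟩
      · rw [mem_D]
        constructor <;> simp [l1, l2] <;> ring
      · rw [Submodule.mem_span_pair]
        exact ⟨_, _, rfl⟩
  · fin_cases i <;> fin_cases j <;> simp [l1, l2]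
  · fin_cases i <;> fin_cases j <;> simp [dl1, dl2]
  · simp [VectorField.lieBracket]

end Q195.Dist46
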