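import Pool.Agent.Q195.Dist46.Example

/-!
# The germ of `D` at `0` is not diffeomorphic to the flat one
-/

open Set Filter

namespace Q195.Dist46

/-- The pull-back of `dz - y dx` (with `z`, `y`, `x` the coordinates `c`, `b`, `a`). -/
noncomputable def mu (φ : E → E) (a b c : Fin 6) (x : E) : E →L[ℝ] ℝ :=
  (pr c - φ x b • pr a).comp (fderiv ℝ φ x)

theorem mu_hasFDerivAt {φ : E → E} {x : E} (hφ : ContDiffAt ℝ 2 φ x) (a b c : Fin 6) :
    DifferentiableAt ℝ (mu φ a b c) x ∧ ∀ u v, fderiv ℝ (mu φ a b c) x u v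
      = (fderiv ℝ (fderiv ℝ φ) x u v) c - φ x b * (fderiv ℝ (fderiv ℝ φ) x u v) a
        - (fderiv ℝ φ x u) b * (fderiv ℝ φ x v) a := by
  have h1 : DifferentiableAt ℝ (fderiv ℝ φ) x :=
    (hφ.fderiv_right (m := 1) le_rfl).differentiableAt one_ne_zero
  have h2 : HasFDerivAt φ (fderiv ℝ φ x) x :=
    (hφ.differentiableAt two_ne_zero).hasFDerivAt
  have h3 : HasFDerivAt (fun x => φ x b) ((pr b).comp (fderiv ℝ φ x)) x :=
    ((pr b).hasFDerivAt).comp x h2
  have h4 : HasFDerivAt (fun x => pr c - φ x b • pr a)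
      (-(((pr b).comp (fderiv ℝ φ x)).smulRight (pr a))) x :=
    (h3.smul_const (pr a)).const_sub (pr c)
  have h5 := h4.clm_comp h1.hasFDerivAt
  refine ⟨h5.differentiableAt, fun u v => ?_⟩
  change fderiv ℝ (fun x => (pr c - φ x b • pr a).comp (fderiv ℝ φ x)) x u v = _
  rw [h5.fderiv]
  simp
  ring

theorem dmu {φ : E → E} {x : E} (hφ : ContDiffAt ℝ 2 φ x) (a b c : Fin 6) (u v : E) :
    dForm (mu φ a b c) x u v = (fderiv ℝ φ x u) a * (fderiv ℝ φ x v) b
      - (fderiv ℝ φ x u) b * (fderiv ℝ φ x v) a := by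
  unfold dForm
  have hs : fderiv ℝ (fderiv ℝ φ) x u v = fderiv ℝ (fderiv ℝ φ) x v u :=
    (hφ.isSymmSndFDerivAt (by simp)).eq u v
  rw [(mu_hasFDerivAt hφ a b c).2, (mu_hasFDerivAt hφ a b c).2, hs]
  ring

theorem pf_dmu {φ : E → E} {x : E} (hφ : ContDiffAt ℝ 2 φ x) (a b c : Fin 6) (u : Fin 4 → E) :
    pf (fun i j => dForm (mu φ a b c) x (u i) (u j)) = 0 := by
  unfold pf
  simp only [dmu hφ]
  ring

/-- The exterior derivative of a combination. -/
theorem dForm_comb {μ : E → E →L[ℝ] ℝ} {a b : E → ℝ} {x : E}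
    (hμ : μ =ᶠ[nhds x] fun x => a x • l1 x + b x • l2 x)
    (ha : DifferentiableAt ℝ a x) (hb : DifferentiableAt ℝ b x) (u v : E) :
    dForm μ x u v = fderiv ℝ a x u * l1 x v - fderiv ℝ a x v * l1 x u
      + fderiv ℝ b x u * l2 x v - fderiv ℝ b x v * l2 x u
      + a x * dForm l1 x u v + b x * dForm l2 x u v := by
  unfold dForm
  have h1 : HasFDerivAt (fun x => a x • l1 x + b x • l2 x)
      (a x • fderiv ℝ l1 x + (fderiv ℝ a x).smulRight (l1 x) +
        (b x • fderiv ℝ l2 x + (fderiv ℝ b x).smulRight (l2 x))) x :=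
    (ha.hasFDerivAt.smul (l1_fderiv x).differentiableAt.hasFDerivAt).add
      (hb.hasFDerivAt.smul (l2_fderiv x).differentiableAt.hasFDerivAt)
  rw [hμ.fderiv_eq, h1.fderiv]
  simp
  ring

/-- A 1-form annihilating `D` is a combination of `λ₁` and `λ₂`. -/
theorem comb_of_ann {μ : E →L[ℝ] ℝ} {x : E} (h : ∀ v ∈ D x, μ v = 0) :
    μ = μ (Pi.single 4 1) • l1 x + μ (Pi.single 5 1) • l2 x := by
  ext v
  have h1 : v - (l1 x v • Pi.single 4 1 + l2 x v • Pi.single 5 1) ∈ D x := by
    rw [mem_D]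
    constructor <;> simp [l1, l2] <;> ring
  have h2 := h _ h1
  rw [map_sub, map_add, map_smul, map_smul] at h2
  simp only [_root_.add_apply, _root_.smul_apply, smul_eq_mul] at h2 ⊢
  linarith

theorem not_flat : ¬ GermDiffeo D 0 flat 0 := by
  rintro ⟨φ, h0, hφ0, hs, hs', hD⟩
  have hopen := φ.open_source
  have hat : ∀ x ∈ φ.source, ContDiffAt ℝ 2 φ x := fun x hx =>
    ((hs x hx).contDiffAt (hopen.mem_nhds hx)).of_le (WithTop.coe_le_coe.2 (le_top (a := (2 : ℕ∞))))
  have hat' : ∀ y ∈ φ.target, DifferentiableAt ℝ φ.symm y := fun y hy =>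
    ((hs' y hy).contDiffAt (φ.open_target.mem_nhds hy)).differentiableAt (by simp)
  -- the differential is injective
  have hinj : ∀ x ∈ φ.source, Function.Injective (fderiv ℝ φ x) := by
    intro x hx u v huv
    have h1 : HasFDerivAt φ (fderiv ℝ φ x) x :=
      ((hat x hx).differentiableAt two_ne_zero).hasFDerivAt
    have h2 := ((hat' (φ x) (φ.map_source hx)).hasFDerivAt).comp x h1
    have h3 : HasFDerivAt (φ.symm ∘ φ) (ContinuousLinearMap.id ℝ E) x := by
      refine (hasFDerivAt_id x).congr_of_eventuallyEq ?_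
      filter_upwards [hopen.mem_nhds hx] with y hy
      simp [φ.left_inv hy]
    have h4 := h2.unique h3
    have h5 := congrArg (fun L : E →L[ℝ] E => L u) h4
    have h6 := congrArg (fun L : E →L[ℝ] E => L v) h4
    simp only [ContinuousLinearMap.comp_apply, ContinuousLinearMap.id_apply] at h5 h6
    rw [← h5, ← h6, huv]
  -- the two pulled back forms
  set μ : Fin 2 → E → E →L[ℝ] ℝ := ![mu φ 0 1 4, mu φ 2 3 5] with hμ
  have hmem : ∀ x ∈ φ.source, ∀ v, v ∈ D x ↔ ∀ i, μ i x v = 0 := by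
    intro x hx v
    have h1 : v ∈ D x ↔ fderiv ℝ φ x v ∈ flat (φ x) := by
      rw [← hD x hx]
      constructor
      · intro hv
        exact Submodule.mem_map_of_mem hv
      · rintro ⟨w, hw, hwv⟩
        have : w = v := hinj x hx hwv
        rwa [← this]
    rw [h1, Fin.forall_fin_two]
    simp [flat, hμ, mu]
  have hdiff : ∀ x ∈ φ.source, ∀ i, DifferentiableAt ℝ (μ i) x := by
    intro x hx i
    fin_cases i
    · exact (mu_hasFDerivAt (hat x hx) 0 1 4).1
    · exact (mu_hasFDerivAt (hat x hx) 2 3 5).1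
  have hpf : ∀ x ∈ φ.source, ∀ i, ∀ u : Fin 4 → E,
      pf (fun k l => dForm (μ i) x (u k) (u l)) = 0 := by
    intro x hx i u
    fin_cases i
    · exact pf_dmu (hat x hx) 0 1 4 u
    · exact pf_dmu (hat x hx) 2 3 5 u
  set a : Fin 2 → E → ℝ := fun i x => μ i x (Pi.single 4 1) with ha
  set b : Fin 2 → E → ℝ := fun i x => μ i x (Pi.single 5 1) with hb
  have hcomb : ∀ x ∈ φ.source, ∀ i, μ i x = a i x • l1 x + b i x • l2 x := by
    intro x hx i
    exact comb_of_ann fun v hv => (hmem x hx v).1 hv i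
  have hev : ∀ x ∈ φ.source, ∀ i, μ i =ᶠ[nhds x] fun x => a i x • l1 x + b i x • l2 x := by
    intro x hx i
    filter_upwards [hopen.mem_nhds hx] with y hy
    exact hcomb y hy i
  have hda : ∀ x ∈ φ.source, ∀ i, DifferentiableAt ℝ (a i) x := fun x hx i =>
    (hdiff x hx i).clm_apply (differentiableAt_const _)
  have hdb : ∀ x ∈ φ.source, ∀ i, DifferentiableAt ℝ (b i) x := fun x hx i =>
    (hdiff x hx i).clm_apply (differentiableAt_const _)
  -- the null condition
  have hnull : ∀ x ∈ φ.source, ∀ i, (a i x + b i x * x 0) * (a i x + b i x) = 0 := by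
    intro x hx i
    have h1 := hpf x hx i (fun k => fr k x)
    unfold pf at h1
    have hz : ∀ k, l1 x (fr k x) = 0 ∧ l2 x (fr k x) = 0 := fun k => (mem_D).1 (fr_mem k x)
    simp only [dForm_comb (hev x hx i) (hda x hx i) (hdb x hx i), (hz _).1, (hz _).2, dl1, dl2]
      at h1
    simp [fr] at h1
    exact mul_eq_zero.2 h1
  -- at the origin the two forms are independent
  have hind : a 0 0 * b 1 0 - a 1 0 * b 0 0 ≠ 0 := by
    intro hdet
    -- a vector outside D annihilated by both forms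
    have key : ∀ s t : ℝ, (∀ i, a i 0 * s + b i 0 * t = 0) → s = 0 ∧ t = 0 := by
      intro s t hst
      have h1 : (s • Pi.single 4 1 + t • Pi.single 5 1 : E) ∈ D 0 := by
        rw [hmem 0 h0]
        intro i
        rw [map_add, map_smul, map_smul]
        have := hst i
        simp only [ha, hb] at this
        simp only [smul_eq_mul]
        linarith
      rw [mem_D] at h1
      simpa [l1, l2] using h1
    have k1 := key (b 0 0) (-a 0 0) (by
      rw [Fin.forall_fin_two]; constructor <;> linarith)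
    have k2 := key (b 1 0) (-a 1 0) (by
      rw [Fin.forall_fin_two]; constructor <;> linarith)
    have k3 := key 1 0 (by
      rw [Fin.forall_fin_two]
      constructor
      · linarith [k1.1, k1.2]
      · linarith [k2.1, k2.2])
    exact one_ne_zero k3.1
  have hnull0 := fun i => hnull 0 h0 i
  simp only [Pi.zero_apply, mul_zero, add_zero] at hnull0
  -- one of the two forms is a multiple of `λ₂ - x₁ λ₁` at the origin
  obtain ⟨i, hi0, hi1⟩ : ∃ i, a i 0 = 0 ∧ b i 0 ≠ 0 := by
    rcases mul_eq_zero.1 (hnull0 0) with h | h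
    · refine ⟨0, h, fun hb0 => hind ?_⟩
      rw [h, hb0]; ring
    · rcases mul_eq_zero.1 (hnull0 1) with h' | h'
      · refine ⟨1, h', fun hb0 => hind ?_⟩
        rw [h', hb0]; ring
      · exfalso
        refine hind ?_
        have e1 : a 0 0 = -b 0 0 := by linarith
        have e2 : a 1 0 = -b 1 0 := by linarith
        rw [e1, e2]; ring
  -- hence near the origin
  have hne : a i 0 + b i 0 ≠ 0 := by rw [hi0, zero_add]; exact hi1
  have hcont : ContinuousAt (fun x => a i x + b i x) 0 :=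
    (hda 0 h0 i).continuousAt.add (hdb 0 h0 i).continuousAt
  have hloc : a i =ᶠ[nhds 0] fun x => -(b i x * x 0) := by
    filter_upwards [hopen.mem_nhds h0, hcont.eventually (isOpen_ne.mem_nhds hne)] with x hx hx'
    have := (mul_eq_zero.1 (hnull x hx i)).resolve_right hx'
    linarith
  have hda0 : ∀ v, fderiv ℝ (a i) 0 v = -(b i 0 * v 0) := by
    intro v
    have h1 : HasFDerivAt (fun x : E => -(b i x * x 0))
        (-(b i 0 • pr 0 + (0 : E) 0 • fderiv ℝ (b i) 0)) 0 :=
      ((hdb 0 h0 i).hasFDerivAt.mul ((pr 0).hasFDerivAt (x := (0 : E)))).neg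
    rw [hloc.fderiv_eq, h1.fderiv]
    simp
  -- the Pfaffian on `∂x₂, ∂y₂, ∂x₁, ∂z₁`
  have hfin := hpf 0 h0 i ![Pi.single 2 1, Pi.single 3 1, Pi.single 0 1, Pi.single 4 1]
  unfold pf at hfin
  simp only [dForm_comb (hev 0 h0 i) (hda 0 h0 i) (hdb 0 h0 i), dl1, dl2, hda0, hi0] at hfin
  simp [l1, l2] at hfin
  exact hi1 hfin

end Q195.Dist46
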